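import Pool.Agent.Q184.LS.Net

set_option autoImplicit false

/-!
# Complete comparison of unions of alternating tangles with Seifert manifolds

Let `T`, `T'` be alternating tangle diagrams (`Pool.Agent.Y479.LS.Tangle`; the regions at the boundary
circle are `west`, `east` (white), `north`, `south` (black)), and let `L` be the link that is obtained
by gluing `T` and the mirror image of `T'` along the boundary circle, region by region. The group
`Union.Grp T T'` is the fundamental group of the double branched cover of `L`.

Rational tangles in a diagram (`Has`): between two regions `u`, `v` of one colour and two regions `c`,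
`d` of the other colour a diagram contains the rational tangle `m / k` if it is found by adding
crossings one after the other, in parallel (`m / k` becomes `(m + k) / k`) or in series (`m / k` becomes
`m / (m + k)`), starting with one crossing `1 / 1`; in between the regions may be moved, outwards for
`c`, `d` and inwards for `u`, `v`, in the order of the regions that is forced by the diagram (`Below`),
in particular over everything that two regions separate from the boundary circle. `Parallel l n` means
that the diagram contains, in parallel between its two poles, the rational tangles `m / k` for all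
`(m, k)` in the list `l`, and `n` crossings, in any order. Apart from that the diagram is arbitrary, so
the link is hyperbolic in general.

Suppose that `T` contains the rational tangles `γ_1, ..., γ_K` and `n` crossings in parallel between
`west` and `east`, and that `T'` contains `t / r` between `north` and `south`, where `r / t ≤ n + 1`. If
`T` is the sum of these rational tangles and crossings and `T'` is rational, then the double branched
cover is the Seifert manifold `M(-1; n + 1 - r / t, γ_1, ..., γ_K)` with base `S²`. By Jankins-Neumann
and Naimi it has a horizontal foliation (all invariants in `(0, 1)`, three or more of them, Euler number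
not zero) if and only if there are `0 < a < M` such that in some order the invariants are less than
`a / M`, `(M - a) / M`, `1 / M, ..., 1 / M` (`Foliated`), and then its fundamental group is
left-orderable.

The theorem: if the sum of the invariants is greater than one (this is automatic for three positive
invariants) and the criterion fails, then for all `T`, `T'` as above the fundamental group of the double
branched cover has no nontrivial homomorphism to a left-orderable group. The same holds with the
colours exchanged and with `T`, `T'` exchanged. So the comparison holds for all invariants, and no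
invariant can be made smaller in the minimal cases.
-/

namespace Pool.Agent.Results.MP_9ae2f3_gt.CompleteSeifertComparison

open Pool.Agent.Y479.LS Pool.Agent.Q184.LS

/-- The invariants `n + 1 - r / t` and `m / k` for `(m, k)` in `l`. -/
def invariants (l : List (ℕ × ℕ)) (n t r : ℕ) : List ℚ :=
  ((n : ℚ) + 1 - (r : ℚ) / t) :: l.map fun x => (x.1 : ℚ) / x.2

/-- One diagram contains the rational tangles of `l` and `n` crossings in parallel between its poles
`p`, `q`; the other one contains `t / r` between its poles `a'`, `b'` of the other colour;
`r / t ≤ n + 1`; the sum of the invariants is greater than one and they do not satisfy the criterion of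
Jankins, Neumann and Naimi. -/
def Exceeds {V E C : Type} (v₁ v₂ : C → V) (e₁ e₂ : C → E) (p q : V) (a b : E) {V' E' C' : Type}
    (v₁' v₂' : C' → V') (e₁' e₂' : C' → E') (p' q' : V') (a' b' : E') : Prop :=
  ∃ (l : List (ℕ × ℕ)) (n t r : ℕ), Parallel v₁ v₂ e₁ e₂ p q a b l n a b ∧
    Has e₁' e₂' v₁' v₂' a' b' p' q' t r a' b' p' q' ∧ r ≤ (n + 1) * t ∧
    1 < (invariants l n t r).sum ∧ ¬ Foliated (invariants l n t r)

/-- The hypothesis for the white regions of `T` and the black regions of `T'`, or for the black regions
of `T` and the white regions of `T'`. -/
def TangleExceeds (T T' : Tangle) : Prop :=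
  Exceeds T.w₁ T.w₂ T.b₁ T.b₂ T.west T.east T.north T.south
    T'.w₁ T'.w₂ T'.b₁ T'.b₂ T'.west T'.east T'.north T'.south ∨
  Exceeds T.b₁ T.b₂ T.w₁ T.w₂ T.north T.south T.west T.east
    T'.b₁ T'.b₂ T'.w₁ T'.w₂ T'.north T'.south T'.west T'.east

theorem exceeds_false {V E C : Type} {v₁ v₂ : C → V} {e₁ e₂ : C → E} {p q : V} {a b : E}
    {V' E' C' : Type} {v₁' v₂' : C' → V'} {e₁' e₂' : C' → E'} {p' q' : V'} {a' b' : E'}
    {s₁ : V → List (C × Bool)} {s₂ : E → List (C × Bool)}
    {s₁' : V' → List (C' × Bool)} {s₂' : E' → List (C' × Bool)}
    [Finite V] [Finite E] [Finite V'] [Finite E'] {X : Type} [LinearOrder X]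
    {f : V → Aut X} {h : E → Aut X} {f' : V' → Aut X} {h' : E' → Aut X}
    (S₁ : Side v₁ v₂ e₁ e₂ p q a b s₁) (S₂ : Side e₁ e₂ v₁ v₂ a b p q s₂)
    (S₁' : Side v₁' v₂' e₁' e₂' p' q' a' b' s₁') (S₂' : Side e₁' e₂' v₁' v₂' a' b' p' q' s₂')
    (r₁ : Side.Rel v₁ v₂ e₁ e₂ f h) (r₂ : Side.Rel e₁ e₂ v₁ v₂ h f)
    (r₁' : Side.Rel v₁' v₂' e₁' e₂' f' h') (r₂' : Side.Rel e₁' e₂' v₁' v₂' h' f')
    (hf : Bounds f p q) (hh : Bounds h a b) (hf' : Bounds f' p' q') (hh' : Bounds h' a' b')
    (g1 : f q = f' q') (g2 : h b = h' b')
    (H : Exceeds v₁ v₂ e₁ e₂ p q a b v₁' v₂' e₁' e₂' p' q' a' b') : False := by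
  obtain ⟨l, n, t, r, k1, k2, k4, k5, k6⟩ := H
  obtain ⟨L, l1, l2, l3⟩ := k1.sound S₁ S₂ r₁ r₂ hf hh
  have l4 := k2.sound S₂' S₁' r₂' r₁' hh' hf'
  rw [hh.base, inv_one, one_mul] at l3
  rw [hh'.base, hf'.base, inv_one, one_mul, one_mul, ← g1, ← g2] at l4
  refine close_false (hf.pos q S₁.ne.symm) l2 l3 l4 k4 ?_ ?_
  · rw [l1]; exact k5
  · rw [l1]; exact k6

/-- **Complete comparison with Seifert manifolds.** -/
theorem result (T T' : Tangle) (h : TangleExceeds T T' ∨ TangleExceeds T' T) :
    (∀ (H : Type) [Group H], LeftOrderable H → ∀ (f : Union.Grp T T' →* H) (γ : Union.Grp T T'),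
      f γ = 1) ∧ ¬ LeftOrderable (Union.Grp T T') := by
  have := T.finW
  have := T.finB
  have := T'.finW
  have := T'.finB
  refine Union.not_leftOrderable fun X _ _ w b w' b' D => ?_
  rcases h with (h | h) | (h | h)
  · exact exceeds_false T.white T.black T'.white T'.black D.rep.white D.rep.black D.rep'.white
      D.rep'.black D.white D.black D.white' D.black' D.east D.south h
  · exact exceeds_false T.black T.white T'.black T'.white D.rep.black D.rep.white D.rep'.black
      D.rep'.white D.black D.white D.black' D.white' D.south D.east h
  · exact exceeds_false T'.white T'.black T.white T.black D.rep'.white D.rep'.black D.rep.white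
      D.rep.black D.white' D.black' D.white D.black D.east.symm D.south.symm h
  · exact exceeds_false T'.black T'.white T.black T.white D.rep'.black D.rep'.white D.rep.black
      D.rep.white D.black' D.white' D.black D.white D.south.symm D.east.symm h

end Pool.Agent.Results.MP_9ae2f3_gt.CompleteSeifertComparison
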