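import Pool.Agent.Q184.PZ.Ker

set_option autoImplicit false

/-!
# All cyclic branched covers of the pretzel links P(2a, 2b, 2c), and surgeries on the branch set

Let `l 0, l 1, l 2 ≥ 1` and let `L` be the pretzel link with columns of `2 l 0`, `2 l 1`, `2 l 2`
crossings, oriented as the boundary of a planar surface (the three twisted bands of the columns
between two discs, a pair of pants), so that the two strings of each column are antiparallel; the
linking numbers of the components are `- l j`.  For all `n ≥ 1` and `N 0, N 1, N 2 ≥ 0` let `M` be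
the manifold obtained from the `n`-fold cyclic cover of the exterior of `L` by filling the torus
over the component `j` along the lift of `n` times the meridian plus `N j` times the longitude,
the curve parallel to the component on the surface.  For `N = 0` this is the `n`-fold cyclic
branched cover, and in general it is a surgery on it along the three components of the branch
set.  Every homomorphism from the fundamental group of `M` to a left-orderable group is trivial.

Idea.  Let `a j` be the meridians.  The elements `a j ^ i * (a (j + 1)) ^ (-i)`, for fixed `i`,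
behave as the lifts of one meridian to a threefold cyclic branched cover, with sheets `j` modulo
three, and the steps from `i` to `i + 1` as the columns of a pretzel link with `n` columns: columns
and sheets change places, and the numbers of crossings depend on the sheet.  Let the group act by
order automorphisms on a linear order.  The comparison of two families of order automorphisms
over three sheets of `Pool.Agent.Q184.TP` holds for each column, and can be composed.
-/

universe u

namespace Pool.Agent.Results.MP_9ae2f3_gt.EvenPretzelCovers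

open Pool.Agent.Y479.LS (Aut)
open Pool.Agent.Q184.PZ (lon)

/-- A nontrivial group is left-orderable if it carries a strict total order that is invariant
under left multiplication. -/
def LeftOrderable (G : Type*) [Group G] : Prop :=
  Nontrivial G ∧ ∃ lt : G → G → Prop, IsStrictTotalOrder G lt ∧
    ∀ a b c : G, lt a b ↔ lt (c * a) (c * b)

/-- One crossing of a vertical twist region: if the two strands, both oriented downwards, have
meridians `(x, y)` (left, right) above the crossing, then they have meridians `(y, y⁻¹ x y)`
below it. -/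
def crossing (G : Type*) [Group G] (w : G × G) : G × G := (w.2, w.2⁻¹ * w.1 * w.2)

/-- The meridian `a j` of the arc at the top of the diagram that joins the top right end of
column `j - 1` to the top left end of column `j` (`j` modulo `3`), oriented into column `j`. -/
def arc (j : ZMod 3) : FreeGroup (ZMod 3) := FreeGroup.of j

/-- The downward meridians of the two strands at the bottom of column `j`, which has `2 * l j`
crossings; at the top they are `a j` and `(a (j+1))⁻¹`. -/
def bottom (l : ZMod 3 → ℕ) (j : ZMod 3) : FreeGroup (ZMod 3) × FreeGroup (ZMod 3) :=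
  (crossing (FreeGroup (ZMod 3)))^[2 * l j] (arc j, (arc (j + 1))⁻¹)

/-- The bottom right end of column `j` is joined to the bottom left end of column `j + 1`. -/
def relator (l : ZMod 3 → ℕ) (j : ZMod 3) : FreeGroup (ZMod 3) :=
  (bottom l j).2 * (bottom l (j + 1)).1

/-- The curve parallel to the component `j` on the planar surface, with the orientation of this
component: it runs down column `j` and up column `j - 1` (`j + 2 = j - 1` modulo `3`), between
the two strings.  It commutes with the meridian `a j`, and its total linking number with the link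
is zero. -/
def longitude (l : ZMod 3 → ℕ) (j : ZMod 3) : FreeGroup (ZMod 3) :=
  (arc j * (arc (j + 1))⁻¹) ^ l j * ((arc (j + 2) * (arc j)⁻¹) ^ l (j + 2))⁻¹

/-- The curve along which the component `j` is filled, `n` times the meridian plus `N j` times
the longitude. -/
def slope (l : ZMod 3 → ℕ) (n : ℕ) (N : ZMod 3 → ℕ) (j : ZMod 3) : FreeGroup (ZMod 3) :=
  arc j ^ n * longitude l j ^ N j

/-- The group of the pretzel link with columns of `2 * l j` crossings. -/
abbrev PretzelGroup (l : ZMod 3 → ℕ) : Type := PresentedGroup (Set.range (relator l))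

/-- The quotient of the pretzel group by the three slopes. -/
abbrev FilledGroup (l : ZMod 3 → ℕ) (n : ℕ) (N : ZMod 3 → ℕ) : Type :=
  PresentedGroup (Set.range (relator l) ∪ Set.range (slope l n N))

section formulas
variable {G : Type*} [Group G]

theorem crossing_two (w : G × G) : crossing G (crossing G w) =
    ((w.1 * w.2)⁻¹ * w.1 * (w.1 * w.2), (w.1 * w.2)⁻¹ * w.2 * (w.1 * w.2)) := by
  ext
  · show w.2⁻¹ * w.1 * w.2 = _
    simp only; group
  · show (w.2⁻¹ * w.1 * w.2)⁻¹ * w.2 * (w.2⁻¹ * w.1 * w.2) = _
    simp only; group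

theorem crossing_even (x y : G) (l : ℕ) : (crossing G)^[2 * l] (x, y) =
    (((x * y) ^ l)⁻¹ * x * (x * y) ^ l, ((x * y) ^ l)⁻¹ * y * (x * y) ^ l) := by
  induction l with
  | zero => simp
  | succ l ih =>
    have e : 2 * (l + 1) = (2 * l).succ.succ := by omega
    rw [e, Function.iterate_succ_apply', Function.iterate_succ_apply', ih, crossing_two]
    set P := x * y with hP
    have h1 : ((P ^ l)⁻¹ * x * P ^ l) * ((P ^ l)⁻¹ * y * P ^ l) = P := by
      calc _ = (P ^ l)⁻¹ * (x * y) * P ^ l := by group
        _ = P := by rw [← hP]; group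
    simp only [h1]
    rw [pow_succ]
    ext
    · simp only; group
    · simp only; group

end formulas

theorem bottom_eq (l : ZMod 3 → ℕ) (j : ZMod 3) : bottom l j =
    (((arc j * (arc (j + 1))⁻¹) ^ l j)⁻¹ * arc j * (arc j * (arc (j + 1))⁻¹) ^ l j,
      ((arc j * (arc (j + 1))⁻¹) ^ l j)⁻¹ * (arc (j + 1))⁻¹ *
        (arc j * (arc (j + 1))⁻¹) ^ l j) := by
  unfold bottom
  rw [crossing_even]

/-- The relators have degree `0`. -/
theorem degree_rel (l : ZMod 3 → ℕ) (n : ℕ) (N : ZMod 3 → ℕ) :
    ∀ w ∈ Set.range (relator l) ∪ Set.range (slope l n N),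
      FreeGroup.lift (fun _ : ZMod 3 => (Multiplicative.ofAdd 1 : Multiplicative (ZMod n))) w
        = 1 := by
  rintro w (⟨j, rfl⟩ | ⟨j, rfl⟩)
  · unfold relator
    rw [bottom_eq, bottom_eq]
    simp [arc]
  · unfold slope longitude
    simp only [arc, map_mul, map_pow, map_inv, FreeGroup.lift_apply_of, mul_inv_cancel, one_pow,
      inv_one, mul_one]
    rw [← ofAdd_nsmul]
    simp

/-- The homomorphism to `Z/n` that sends all meridians `a j` to `1`. -/
def degree (l : ZMod 3 → ℕ) (n : ℕ) (N : ZMod 3 → ℕ) :
    FilledGroup l n N →* Multiplicative (ZMod n) :=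
  PresentedGroup.toGroup (degree_rel l n N)

/-- The fundamental group of the manifold obtained from the `n`-fold cyclic cover of the exterior
of the pretzel link with columns of `2 * l j` crossings by filling along the lifts of the slopes:
the kernel of the homomorphism to `Z/n` from the quotient of the link group by the slopes.
For `N = 0` this is the `n`-fold cyclic branched cover. -/
abbrev CoverGroup (l : ZMod 3 → ℕ) (n : ℕ) (N : ZMod 3 → ℕ) : Type := (degree l n N).ker

/-- `G` has no nontrivial homomorphism to a left-orderable group; in particular it is not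
left-orderable. -/
theorem not_lo {G : Type} [Group G]
    (h : ∀ (H : Type) [Group H], LeftOrderable H → ∀ f : G →* H, ∀ g, f g = 1) :
    ¬ LeftOrderable G := by
  intro hG
  obtain ⟨a, b, hab⟩ := hG.1
  have key := h G hG (MonoidHom.id _)
  exact hab ((key a).trans (key b).symm)

/-- left multiplication -/
def lmul {H : Type*} [Group H] [LinearOrder H] (hinv : ∀ a b c : H, a ≤ b ↔ c * a ≤ c * b) :
    H →* Aut H where
  toFun c := (⟨Equiv.mulLeft c, fun {a b} => (hinv a b c).symm⟩ : H ≃o H)
  map_one' := by
    apply Aut.ext'
    intro x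
    exact one_mul x
  map_mul' a b := by
    apply Aut.ext'
    intro x
    exact mul_assoc a b x

theorem of_aut {Γ : Type*} [Group Γ] {H : Type*} [Group H] (hH : LeftOrderable H)
    (h : ∀ [LinearOrder H] (ψ : Γ →* Aut H) (g : Γ), ψ g = 1) (f : Γ →* H) (γ : Γ) :
    f γ = 1 := by
  classical
  obtain ⟨_, lt, hlt, hinv⟩ := hH
  let _ : LinearOrder H := linearOrderOfSTO lt
  have hinv' : ∀ a b c : H, a ≤ b ↔ c * a ≤ c * b := by
    intro a b c
    show (a = b ∨ lt a b) ↔ (c * a = c * b ∨ lt (c * a) (c * b))
    rw [mul_right_inj, ← hinv]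
  have h1 := h ((lmul hinv').comp f) γ
  have h2 : (lmul hinv') (f γ) (1 : H) = 1 := by
    have : (lmul hinv') (f γ) = 1 := h1
    rw [this]; rfl
  have h3 : f γ * 1 = 1 := h2
  rwa [mul_one] at h3

theorem cover_trivial (l : ZMod 3 → ℕ) (hl : ∀ j, 1 ≤ l j) (n : ℕ) (hn : 0 < n)
    (N : ZMod 3 → ℕ) {X : Type*} [LinearOrder X] (ψ : CoverGroup l n N →* Aut X)
    (g : CoverGroup l n N) : ψ g = 1 := by
  let π : FreeGroup (ZMod 3) →* FilledGroup l n N :=
    PresentedGroup.mk (Set.range (relator l) ∪ Set.range (slope l n N))
  let a : ZMod 3 → FilledGroup l n N := fun j => π (arc j)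
  have hrel : ∀ j, π (relator l j) = 1 := fun j =>
    PresentedGroup.one_of_mem (Or.inl ⟨j, rfl⟩)
  have hslope : ∀ j, π (slope l n N j) = 1 := fun j =>
    PresentedGroup.one_of_mem (Or.inr ⟨j, rfl⟩)
  have hpar : ∀ j, π (longitude l j) = (lon l a j)⁻¹ := by
    intro j
    unfold longitude lon
    rw [map_mul, map_inv, map_pow, map_pow, map_mul, map_mul, map_inv, map_inv, mul_inv_rev,
      inv_inv]
  refine Pool.Agent.Q184.PZ.hom_trivial (degree l n N) ψ hn l hl N a ?_ ?_ ?_ ?_ g
  · intro k
    have h : π ((bottom l (k + 2)).2 * (bottom l (k + 2 + 1)).1) = 1 := hrel (k + 2)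
    rw [bottom_eq, bottom_eq, Pool.Agent.Q184.TP.i21] at h
    simp only [map_mul, map_inv, map_pow] at h
    show a k * lon l a k = lon l a k * a k
    unfold lon
    change ((a (k + 2) * (a k)⁻¹) ^ l (k + 2))⁻¹ * (a k)⁻¹ * (a (k + 2) * (a k)⁻¹) ^ l (k + 2) *
      (((a k * (a (k + 1))⁻¹) ^ l k)⁻¹ * a k * (a k * (a (k + 1))⁻¹) ^ l k) = 1 at h
    generalize (a (k + 2) * (a k)⁻¹) ^ l (k + 2) = P at h ⊢
    generalize (a k * (a (k + 1))⁻¹) ^ l k = Q at h ⊢
    generalize a k = x at h ⊢
    have h1 : P⁻¹ * x⁻¹ * (P * Q⁻¹) * x * Q = 1 := by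
      rw [← h]; group
    have h2 : P * Q⁻¹ * x = x * (P * Q⁻¹) := by
      have : x * P * (P⁻¹ * x⁻¹ * (P * Q⁻¹) * x * Q) * Q⁻¹ = x * P * 1 * Q⁻¹ := by rw [h1]
      rw [mul_one] at this
      calc P * Q⁻¹ * x = x * P * (P⁻¹ * x⁻¹ * (P * Q⁻¹) * x * Q) * Q⁻¹ := by group
        _ = x * P * Q⁻¹ := this
        _ = _ := by group
    exact h2.symm
  · intro k
    have h : π (arc k ^ n * longitude l k ^ N k) = 1 := hslope k
    rw [map_mul, map_pow, map_pow, hpar, inv_pow, mul_inv_eq_one] at h
    exact h
  · intro M hM
    rw [eq_top_iff, ← PresentedGroup.closure_range_of, Subgroup.closure_le]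
    rintro _ ⟨j, rfl⟩
    exact hM j
  · intro k
    exact PresentedGroup.toGroup.of _

/-- For all `l 0, l 1, l 2 ≥ 1`, all `n ≥ 1` and all `N 0, N 1, N 2 ≥ 0` the fundamental group of
the manifold obtained from the `n`-fold cyclic cover of the exterior of the pretzel link
`P(2 l 0, 2 l 1, 2 l 2)` by filling along the slopes is not left-orderable and has no nontrivial
homomorphism to a left-orderable group. -/
theorem result (l : ZMod 3 → ℕ) (hl : ∀ j, 1 ≤ l j) (n : ℕ) (hn : 0 < n) (N : ZMod 3 → ℕ) :
    ¬ LeftOrderable (CoverGroup l n N) ∧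
    ∀ (H : Type u) [Group H], LeftOrderable H →
      ∀ f : CoverGroup l n N →* H, ∀ g, f g = 1 :=
  ⟨not_lo fun _ _ hH f g => of_aut hH (fun ψ g => cover_trivial l hl n hn N ψ g) f g,
    fun _ _ hH f g => of_aut hH (fun ψ g => cover_trivial l hl n hn N ψ g) f g⟩

end Pool.Agent.Results.MP_9ae2f3_gt.EvenPretzelCovers
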