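import Pool.Agent.Q184.PT.Low

set_option autoImplicit false

/-!
# Positive tangles: a class of non-alternating links closed under substitution

A tangle in a ball, whose boundary sphere meets the four regions `west` (white), `north` (black),
`east` (white), `south` (black), is studied through its double branched cover (`Box`): the fundamental
group `G` with the commuting elements `g` (the lift of an arc from `west` to `east`) and `A` (the lift
of an arc from `north` to `south`), which are carried by the boundary torus. The constructions are:

* `rat p q`, the rational tangle `p / q` (`G` is generated by `z`, `g = z ^ q`, `A = z ^ p`);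
* `mirror`, the mirror image (`A` becomes `A⁻¹`); `swap`, the other colouring (`g` and `A` exchanged);
* `add U V`, the sum (`U` above `V`, common regions `west` and `east`): the amalgamated product over
  `g`, with `A = A_U A_V`;
* `subst T U`, the tangle that is obtained from an alternating tangle diagram `T` by inserting an
  arbitrary tangle `U c` at each crossing `c` (with its `west`, `south`, `east`, `north` at the corners
  `w₁, b₁, w₂, b₂` of `c`): the generators are the regions and the groups of the `U c`, with the
  relations `w₁⁻¹ w₂ = g_c`, `b₂⁻¹ b₁ = A_c` and `west = north = 1`; here `g = east`, `A = south`.

`Low W s n` is an inductively defined bound `W ≥ n` (`W > n` for `s = true`) for the slope of a tangle.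
A tangle with `Low W true 0` is called positive. The rules: rational tangles have their own slope; sums
add the bounds; positive tangles may be inserted in every alternating diagram and give a positive
tangle, for which further lower and upper bounds come from the tangles inserted between `west` and
`east`, and from the paths of tangles that separate `west` from `east`; finally `U - V` is positive if
`U ≥ n ≥ V` for an integer `n`, one of the inequalities being strict.

So the class of positive tangles contains the alternating tangles of one sign, all sums
`U - V` with an integer between `U` and `V` (not alternating, for instance `3/2 - 1/3`, and not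
algebraic in general), everything that is obtained from these by insertion in alternating diagrams, and
so on, with any number of steps. The theorem: the two closures of a positive tangle, `north = south` and
`west = east`, are links such that every homomorphism from the fundamental group of the double branched
cover to a left-orderable group is trivial. In particular, it is not left-orderable. (All fillings of
nonnegative slope are included, as the sum with a rational tangle is positive again; and the gluing of
two positive tangle covers by `g = g'`, `A = A'⁻¹`.)
-/

namespace Pool.Agent.Results.MP_9ae2f3_gt.PositiveTangles

open Pool.Agent.Y479.LS Pool.Agent.Q184.PT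

/-- A positive tangle that is not alternating: `3/2 - 1/3`. -/
example : Low (Box.add (Box.rat 3 2) (Box.rat 1 3).mirror) true 0 := by
  have h1 : Low (Box.rat 3 2) true 1 := Low.rat (by norm_num) (by norm_num) (fun _ => by norm_num)
  have h2 : Low (Box.rat 1 3).mirror true (-1) :=
    Low.ratM (by norm_num) (by norm_num) (fun _ => by norm_num)
  exact Low.add h1 h2

/-- **Positive tangles.** Homomorphisms from the groups of the two closures of a positive tangle to
left-orderable groups are trivial. -/
theorem result (W : Box) (h : Low W true 0) :
    (∀ (H : Type) [Group H], LeftOrderable H → (∀ (f : W.num →* H) (γ : W.num), f γ = 1) ∧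
      ∀ (f : W.den →* H) (γ : W.den), f γ = 1) ∧
    ¬ LeftOrderable W.num ∧ ¬ LeftOrderable W.den := by
  obtain ⟨h1, -, h2⟩ := h.sound
  have key : ∀ (H : Type) [Group H], LeftOrderable H → (∀ (f : W.num →* H) (γ : W.num), f γ = 1) ∧
      ∀ (f : W.den →* H) (γ : W.den), f γ = 1 := fun H _ hH =>
    ⟨Box.num_trivial h1 (h2 rfl) H hH, Box.den_trivial h1 H hH⟩
  refine ⟨key, fun hH => ?_, fun hH => ?_⟩
  · obtain ⟨x, y, hxy⟩ := hH.1
    refine hxy ?_
    have h3 := (key W.num hH).1 (MonoidHom.id _)
    exact (h3 x).trans (h3 y).symm
  · obtain ⟨x, y, hxy⟩ := hH.1
    refine hxy ?_
    have h3 := (key W.den hH).2 (MonoidHom.id _)
    exact (h3 x).trans (h3 y).symm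

end Pool.Agent.Results.MP_9ae2f3_gt.PositiveTangles
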